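import Pool.Agent.Helper40.EL.D5
import Pool.Agent.Helper40.EL.D4

/-! A label `kappa_c` at a fresh time (resampling of the label given the line): no leak at the line, and the point has
at least as much entropy given the fresh label as given `kappa_c` (blindness; MAX (4.3), 39c (4.3)). -/

namespace Pool.Agent.Helper91.NS

open Finset Filter Topology Pool.Agent.Helper69.RK Pool.Agent.Helper31.EC Pool.Agent.Helper31.EC.Sp
open Pool.Agent.Helper40.EL

noncomputable section

variable {S : Sp} {m : ℕ}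

theorem H_cl_rpI (A : S.Inf) : H (cl A) = ul (fun k => H (rpI A k) / (S.F k).n) := by
  rw [H_cl]
  congr 1
  funext k
  exact (H_rpI A k).symm

/-- entropies in the space over a label -/
theorem H_up1_cl (l : Lab S) (A : S.Inf) :
    H (up1 l (cl A)) = ul (fun k => h ((l k).p.map (rpI A k)) (l k).v / (S.F k).n) := by
  have h1 : up1 l (cl A) = cl (l.upI 1 one_pos A) := l.upL_cl 1 one_pos A
  rw [h1, H_cl_rpI]
  congr 1
  funext k
  have h2 : rpI (l.upI 1 one_pos A) k = (l k).up 1 one_pos (rpI A k) := congrFun (l.rpI_upI 1 one_pos A) k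
  have h3 : ((l.ovr 1 one_pos).F k).n = (S.F k).n := by
    rw [l.n_over, one_mul]
  have h4 : H ((l k).up 1 one_pos (rpI A k)) = h ((l k).p.map (rpI A k)) (l k).v := (l k).H_up 1 one_pos _
  rw [h2, h3]
  exact congrArg (fun x => x / (S.F k).n) h4

theorem UB_H_rpI (A : S.Inf) : UB (fun k => H (rpI A k) / (S.F k).n) := (rpI_Bd A)

theorem UB_h_map (l : Lab S) (A : S.Inf) : UB (fun k => h ((l k).p.map (rpI A k)) (l k).v / (S.F k).n) := by
  refine UB.sandwich (UB_const 0) (UB_H_rpI A) ?_ ?_
  · exact Eventually.of_forall fun k => div_nonneg (h_nonneg _ _) (S.F k).pos.le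
  · refine Eventually.of_forall fun k => div_le_div_of_nonneg_right ?_ (S.F k).pos.le
    rw [← (l k).p.H_map]
    exact h_le_H _ _

/-- the information of a label about `A` -/
theorem info_sub_leak (l : Lab S) (A : S.Inf) :
    ul (fun k => ((l k).info - (l k).leak (rpI A k)) / (S.F k).n) = H (cl A) - H (up1 l (cl A)) := by
  rw [H_up1_cl, H_cl_rpI, ← ul_sub (UB_H_rpI A) (UB_h_map l A)]
  congr 1
  funext k
  rw [← sub_div]
  congr 1
  rw [(l k).info_eq_leak (rpI A k), I_eq', h_bot, (l k).p.H_map, sup_bot_eq]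
  ring

/-- the label at a fresh time of the window `c` -/
def fresh (s : Sys S m) (c : ℝ) (l : Lab S) : Lab S := l.rs (cA s c)

theorem fresh_leak (s : Sys S m) (c : ℝ) (l : Lab S) (k : ℕ) : (fresh s c l k).leak (cA s c k) = 0 :=
  FLab.rs_leak _ _

theorem lA_zero (s : Sys S m) : lA s 0 = s.xi 1 := by
  unfold lA
  rw [s.t.dg_nonpos le_rfl, sup_bot_eq]

/-- the information of the fresh label -/
theorem fresh_info (s : Sys S m) (c : ℝ) (l : Lab S) : (fresh s c l).info = H (lA s c) - H (up1 l (lA s c)) := by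
  rw [← cl_A, ← info_sub_leak, ← cA_eq]
  show ul (fun k => (fresh s c l k).info / (S.F k).n) = _
  congr 1
  funext k
  congr 1
  exact (l k).rs_info (cA s c k)

theorem fresh_UB (s : Sys S m) (c : ℝ) (l : Lab S) : UB (fun k => (fresh s c l k).info / (S.F k).n) := by
  refine UB.sandwich (UB_const 0) (cA_Bd s c) ?_ ?_
  · exact Eventually.of_forall fun k => div_nonneg (FLab.info_nonneg _) (S.F k).pos.le
  · refine Eventually.of_forall fun k => div_le_div_of_nonneg_right ?_ (S.F k).pos.le
    have h1 := (fresh s c l k).info_le (cA s c k)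
    rw [fresh_leak] at h1
    linarith

/-- BLINDNESS -/
theorem fresh_P (s : Sys S m) {c : ℝ} (h0 : 0 ≤ c) (h1 : c ≤ 1) {l : Lab S} (hl : IsKap s c l) :
    h (up1 l (s.P.dg 1)) (up1 l s.T) ≤ h (up1 (fresh s 0 l) (s.P.dg 1)) (up1 (fresh s 0 l) s.T) := by
  have e1 : (fresh s 0 l).info = ic s c := by
    rw [fresh_info, lA_zero, ← hl.ic_xi h0 h1]
  have e2 : H (lB s) - H (up1 (fresh s 0 l) (lB s)) ≤ (fresh s 0 l).info := by
    rw [← cl_B, ← info_sub_leak]
    have hU : UB (fun k => ((fresh s 0 l k).info - (fresh s 0 l k).leak (rpI (Inf.sup (s.IP 1) (s.It 1)) k)) /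
        (S.F k).n) := by
      refine UB.sandwich (UB_const 0) (fresh_UB s 0 l) ?_ ?_
      · refine Eventually.of_forall fun k => div_nonneg ?_ (S.F k).pos.le
        rw [(fresh s 0 l k).info_eq_leak (rpI (Inf.sup (s.IP 1) (s.It 1)) k), add_sub_cancel_right]
        exact I_nonneg _ _ _
      · refine Eventually.of_forall fun k => div_le_div_of_nonneg_right ?_ (S.F k).pos.le
        have := (fresh s 0 l k).leak_nonneg (rpI (Inf.sup (s.IP 1) (s.It 1)) k)
        linarith
    apply ul_mono hU (fresh_UB s 0 l)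
    refine Eventually.of_forall fun k => div_le_div_of_nonneg_right ?_ (S.F k).pos.le
    have := (fresh s 0 l k).leak_nonneg (rpI (Inf.sup (s.IP 1) (s.It 1)) k)
    linarith
  have e3 : h (up1 (fresh s 0 l) (s.P.dg 1)) (up1 (fresh s 0 l) s.T) =
      H (up1 (fresh s 0 l) (lB s)) - H (up1 (fresh s 0 l) s.T) := by
    unfold h lB
    rw [up1_sup]
  have e4 := H_up1_le (fresh s 0 l) s.T
  have e5 := hl.ic_P h0 h1
  have e6 := H_B s
  have e7 := s.H_T
  linarith

/-- the height is full given the fresh label -/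
theorem fresh_T (s : Sys S m) (l : Lab S) : H (up1 (fresh s 0 l) s.T) = 1 := by
  apply le_antisymm
  · have := H_up1_le (fresh s 0 l) s.T
    rw [s.H_T] at this
    exact this
  · have h1 : H (up1 (fresh s 0 l) (s.xi 1 ⊔ s.T)) - H (up1 (fresh s 0 l) (s.xi 1)) = 1 := by
      have hl : Nul S (fun k => (fresh s 0 l k).leak (rp (lA s 0) k)) := by
        have h2 := (cA_rp s 0)
        refine Nul.of_le (h2.2) (Eventually.of_forall fun _ => FLab.leak_nonneg _ _)
          (Eventually.of_forall fun k => ?_)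
        have h3 := (fresh s 0 l k).leak_le_leak (rp (lA s 0) k) (cA s 0 k)
        rw [fresh_leak, zero_add] at h3
        exact h3
      have h4 := Lab.h_upL_of_leak (l := fresh s 0 l) 1 one_pos (x := s.T) (y := lA s 0) hl le_rfl
      rw [div_one, lA_zero, s.hT_xi] at h4
      have h5 : h (up1 (fresh s 0 l) s.T) (up1 (fresh s 0 l) (s.xi 1)) = 1 := h4
      unfold h at h5
      rw [up1_sup, sup_comm]
      exact h5
    have h6 := H_sup_le (up1 (fresh s 0 l) (s.xi 1)) (up1 (fresh s 0 l) s.T)
    rw [up1_sup] at h1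
    linarith

end

end Pool.Agent.Helper91.NS
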