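import Pool.Agent.Helper31.EC.RobS
import Pool.Agent.Helper89.LX.Agr

/-! Exact entropy calculus: information densities. From `I(V; Y | C) ≤ ε` one gets an event of probability at least
`1 - ε / ε₁` on all events of which (in all extensions) `I(V; Y | C) ≤ ε₁`. -/

namespace Pool.Agent.Helper91.NS

open Finset Filter Topology Pool.Agent.Helper69.RK Pool.Agent.Helper31.EC Pool.Agent.Helper31.EC.Sp

noncomputable section

section fin

variable {Ω α β γ : Type} [Fintype Ω]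

/-- change of weights -/
theorem swap (μ ν : Ω → ℝ) (hμ : ∀ ω, 0 ≤ μ ω) (hν : ∀ ω, 0 ≤ ν ω) (f : Ω → α) (ψ : Ω → ℝ) (hψ : ∀ ω, 0 ≤ ψ ω)
    (hc : ∀ ω ω', f ω = f ω' → ψ ω = ψ ω') :
    ∑ ω, ν ω * (pr μ f ω * ψ ω / pr ν f ω) ≤ ∑ ω, μ ω * ψ ω := by
  classical
  have e1 : ∀ ω, ν ω * (pr μ f ω * ψ ω / pr ν f ω) =
      ∑ ω', e1_ind (f ω' = f ω) * μ ω' * ψ ω' * (ν ω / pr ν f ω) := by
    intro ω
    rw [e1_pr_ind μ f ω]
    have : ν ω * ((∑ ω', e1_ind (f ω' = f ω) * μ ω') * ψ ω / pr ν f ω) =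
        (∑ ω', e1_ind (f ω' = f ω) * μ ω') * (ψ ω * (ν ω / pr ν f ω)) := by ring
    rw [this, Finset.sum_mul]
    refine Finset.sum_congr rfl fun ω' _ => ?_
    by_cases h : f ω' = f ω
    · rw [hc ω' ω h]; ring
    · rw [e1_ind_neg h]; ring
  rw [Finset.sum_congr rfl (fun ω _ => e1 ω), Finset.sum_comm]
  refine Finset.sum_le_sum fun ω' _ => ?_
  have e2 : ∑ ω, e1_ind (f ω' = f ω) * μ ω' * ψ ω' * (ν ω / pr ν f ω) =
      μ ω' * ψ ω' * ∑ ω ∈ univ.filter (fun ω => f ω' = f ω), ν ω / pr ν f ω := by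
    rw [Finset.mul_sum, Finset.sum_filter]
    refine Finset.sum_congr rfl fun ω _ => ?_
    by_cases h : f ω' = f ω
    · rw [e1_ind_pos h, if_pos h]; ring
    · rw [e1_ind_neg h, if_neg h]; ring
  rw [e2]
  have e3 : ∑ ω ∈ univ.filter (fun ω => f ω' = f ω), ν ω / pr ν f ω ≤ 1 := by
    apply e1_sum_div_le ν f hν
    intro a ha b hb
    rw [Finset.mem_filter] at ha hb
    rw [← ha.2, ← hb.2]
  calc μ ω' * ψ ω' * ∑ ω ∈ univ.filter (fun ω => f ω' = f ω), ν ω / pr ν f ω ≤ μ ω' * ψ ω' * 1 :=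
        mul_le_mul_of_nonneg_left e3 (mul_nonneg (hμ _) (hψ _))
    _ = μ ω' * ψ ω' := by ring

/-- information density of `f` and `h` given `g` -/
def idn (μ : Ω → ℝ) (f : Ω → α) (h : Ω → β) (g : Ω → γ) (ω : Ω) : ℝ :=
  Real.logb 2 (pr μ g ω) - Real.logb 2 (pr μ (fun ω' => (f ω', g ω')) ω) -
    Real.logb 2 (pr μ (fun ω' => (h ω', g ω')) ω) + Real.logb 2 (pr μ (fun ω' => (f ω', (h ω', g ω'))) ω)

theorem sum_idn (μ : Ω → ℝ) (f : Ω → α) (h : Ω → β) (g : Ω → γ) :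
    ∑ ω, μ ω * idn μ f h g ω = CH μ f g - CH μ f (fun ω => (h ω, g ω)) := by
  unfold CH idn
  rw [← Finset.sum_sub_distrib]
  refine Finset.sum_congr rfl fun ω _ => ?_
  ring

/-- the inverse density has expectation at most one -/
theorem sum_inv (μ : Ω → ℝ) (hμ : ∀ ω, 0 ≤ μ ω) (f : Ω → α) (h : Ω → β) (g : Ω → γ) :
    ∑ ω, μ ω * (pr μ (fun ω' => (h ω', g ω')) ω * pr μ (fun ω' => (f ω', g ω')) ω /
      (pr μ (fun ω' => (f ω', (h ω', g ω'))) ω * pr μ g ω)) ≤ ∑ ω, μ ω := by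
  classical
  set Phg : Ω → ℝ := pr μ (fun ω' => (h ω', g ω')) with hPhg
  set Pfg : Ω → ℝ := pr μ (fun ω' => (f ω', g ω')) with hPfg
  set Pall : Ω → ℝ := pr μ (fun ω' => (f ω', (h ω', g ω'))) with hPall
  set Pg : Ω → ℝ := pr μ g with hPg
  have e1 : ∀ ω, μ ω * (Phg ω * Pfg ω / (Pall ω * Pg ω)) =
      ∑ ω1, ∑ ω2, (e1_ind ((h ω1, g ω1) = (h ω, g ω)) * μ ω1) *
        (e1_ind ((f ω2, g ω2) = (f ω, g ω)) * μ ω2) * (μ ω / (Pall ω * Pg ω)) := by
    intro ω
    have : μ ω * (Phg ω * Pfg ω / (Pall ω * Pg ω)) = (Phg ω * Pfg ω) * (μ ω / (Pall ω * Pg ω)) := by ring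
    rw [this, hPhg, hPfg, e1_pr_ind, e1_pr_ind, Finset.sum_mul_sum, Finset.sum_mul]
    refine Finset.sum_congr rfl fun ω1 _ => ?_
    rw [Finset.sum_mul]
  rw [Finset.sum_congr rfl (fun ω _ => e1 ω), Finset.sum_comm]
  refine Finset.sum_le_sum fun ω1 _ => ?_
  rw [Finset.sum_comm]
  have e2 : ∀ ω2, (∑ ω, (e1_ind ((h ω1, g ω1) = (h ω, g ω)) * μ ω1) *
        (e1_ind ((f ω2, g ω2) = (f ω, g ω)) * μ ω2) * (μ ω / (Pall ω * Pg ω))) ≤
      (e1_ind (g ω2 = g ω1) * μ ω2) * (μ ω1 / Pg ω1) := by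
    intro ω2
    by_cases hg : g ω2 = g ω1
    · rw [e1_ind_pos hg]
      set S : Finset Ω := univ.filter (fun ω => (h ω1, g ω1) = (h ω, g ω) ∧ (f ω2, g ω2) = (f ω, g ω)) with hS
      have e3 : (∑ ω, (e1_ind ((h ω1, g ω1) = (h ω, g ω)) * μ ω1) *
        (e1_ind ((f ω2, g ω2) = (f ω, g ω)) * μ ω2) * (μ ω / (Pall ω * Pg ω))) =
          ∑ ω ∈ S, μ ω1 * μ ω2 / Pg ω1 * (μ ω / Pall ω) := by
        rw [← Finset.sum_subset (Finset.subset_univ S)]
        · refine Finset.sum_congr rfl fun ω hω => ?_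
          simp only [hS, Finset.mem_filter, Finset.mem_univ, true_and] at hω
          rw [e1_ind_pos hω.1, e1_ind_pos hω.2]
          have : Pg ω = Pg ω1 := by
            rw [hPg]
            exact e1_pr_atom μ g ω ω1 (Prod.ext_iff.1 hω.1).2.symm
          rw [this]
          ring
        · intro ω _ hω
          simp only [hS, Finset.mem_filter, Finset.mem_univ, true_and, not_and_or] at hω
          rcases hω with hω | hω
          · rw [e1_ind_neg hω]
            ring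
          · rw [e1_ind_neg hω]
            ring
      rw [e3, ← Finset.mul_sum]
      have e4 : ∑ ω ∈ S, μ ω / Pall ω ≤ 1 := by
        refine e1_sum_div_le μ _ hμ S ?_
        intro ω hω ω' hω'
        simp only [hS, Finset.mem_filter, Finset.mem_univ, true_and, Prod.mk.injEq] at hω hω'
        simp only [Prod.mk.injEq]
        refine ⟨?_, ?_, ?_⟩
        · rw [← hω.2.1, ← hω'.2.1]
        · rw [← hω.1.1, ← hω'.1.1]
        · rw [← hω.1.2, ← hω'.1.2]
      have e5 : 0 ≤ μ ω1 * μ ω2 / Pg ω1 :=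
        div_nonneg (mul_nonneg (hμ _) (hμ _)) (e1_pr_nonneg μ g hμ ω1)
      calc μ ω1 * μ ω2 / Pg ω1 * ∑ ω ∈ S, μ ω / Pall ω ≤ μ ω1 * μ ω2 / Pg ω1 * 1 :=
            mul_le_mul_of_nonneg_left e4 e5
        _ = 1 * μ ω2 * (μ ω1 / Pg ω1) := by ring
    · rw [e1_ind_neg hg, zero_mul, zero_mul]
      refine le_of_eq (Finset.sum_eq_zero fun ω _ => ?_)
      by_cases c1 : (h ω1, g ω1) = (h ω, g ω)
      · by_cases c2 : (f ω2, g ω2) = (f ω, g ω)
        · exact absurd ((Prod.ext_iff.1 c2).2.trans (Prod.ext_iff.1 c1).2.symm) hg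
        · rw [e1_ind_neg c2]
          ring
      · rw [e1_ind_neg c1]
        ring
  refine (Finset.sum_le_sum fun ω2 _ => e2 ω2).trans ?_
  rw [← Finset.sum_mul, ← e1_pr_ind μ g ω1]
  by_cases h0 : μ ω1 = 0
  · simp [h0]
  · have := e1_pr_pos μ g hμ ω1 h0
    rw [hPg]
    field_simp
    exact le_rfl

/-- the negative part of the density -/
theorem sum_neg_le (μ : Ω → ℝ) (hμ : ∀ ω, 0 ≤ μ ω) (hm : ∑ ω, μ ω = 1) (f : Ω → α) (h : Ω → β) (g : Ω → γ) :
    ∑ ω, μ ω * max 0 (-idn μ f h g ω) ≤ 2 := by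
  have h2 : 0 < Real.log 2 := Real.log_pos (by norm_num)
  have h2' : (1 : ℝ) / 2 < Real.log 2 := by
    have := Real.log_two_gt_d9
    linarith
  have h3 : ∑ ω, μ ω * max 0 (-idn μ f h g ω) ≤
      ∑ ω, (μ ω * (pr μ (fun ω' => (h ω', g ω')) ω * pr μ (fun ω' => (f ω', g ω')) ω /
      (pr μ (fun ω' => (f ω', (h ω', g ω'))) ω * pr μ g ω))) / Real.log 2 := by
    refine Finset.sum_le_sum fun ω _ => ?_
    by_cases h0 : μ ω = 0
    · rw [h0]; simp
    have a1 := e1_pr_pos μ (fun ω' => (h ω', g ω')) hμ ω h0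
    have a2 := e1_pr_pos μ (fun ω' => (f ω', g ω')) hμ ω h0
    have a3 := e1_pr_pos μ (fun ω' => (f ω', (h ω', g ω'))) hμ ω h0
    have a4 := e1_pr_pos μ g hμ ω h0
    set q : ℝ := pr μ (fun ω' => (h ω', g ω')) ω * pr μ (fun ω' => (f ω', g ω')) ω /
      (pr μ (fun ω' => (f ω', (h ω', g ω'))) ω * pr μ g ω) with hq
    have hq0 : 0 < q := div_pos (mul_pos a1 a2) (mul_pos a3 a4)
    have e1 : -idn μ f h g ω = Real.logb 2 q := by
      rw [hq, Real.logb_div (mul_pos a1 a2).ne' (mul_pos a3 a4).ne', Real.logb_mul a1.ne' a2.ne',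
        Real.logb_mul a3.ne' a4.ne']
      unfold idn
      ring
    have e2 : max 0 (Real.logb 2 q) ≤ q / Real.log 2 := by
      apply max_le
      · positivity
      · refine (e1_log_le hq0).trans ?_
        apply div_le_div_of_nonneg_right _ h2.le
        linarith
    rw [e1]
    calc μ ω * max 0 (Real.logb 2 q) ≤ μ ω * (q / Real.log 2) := mul_le_mul_of_nonneg_left e2 (hμ ω)
      _ = μ ω * q / Real.log 2 := by ring
  refine h3.trans ?_
  rw [← Finset.sum_div]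
  have h4 := sum_inv μ hμ f h g
  rw [hm] at h4
  rw [div_le_iff₀ h2]
  linarith

open Classical in
/-- Markov for the density -/
theorem markov_idn (μ : Ω → ℝ) (hμ : ∀ ω, 0 ≤ μ ω) (hm : ∑ ω, μ ω = 1) (f : Ω → α) (h : Ω → β) (g : Ω → γ)
    (D : ℝ) (hD : 0 < D) :
    (∑ ω, if D < idn μ f h g ω then μ ω else 0) * D ≤ CH μ f g - CH μ f (fun ω => (h ω, g ω)) + 2 := by
  rw [← sum_idn μ f h g]
  have h1 := sum_neg_le μ hμ hm f h g
  have h2 : (∑ ω, if D < idn μ f h g ω then μ ω else 0) * D ≤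
      ∑ ω, (μ ω * idn μ f h g ω + μ ω * max 0 (-idn μ f h g ω)) := by
    rw [Finset.sum_mul]
    refine Finset.sum_le_sum fun ω _ => ?_
    have e0 : 0 ≤ μ ω * (idn μ f h g ω + max 0 (-idn μ f h g ω)) := by
      apply mul_nonneg (hμ ω)
      have := le_max_right 0 (-idn μ f h g ω)
      linarith
    split_ifs with hc
    · have e1 : μ ω * D ≤ μ ω * idn μ f h g ω := mul_le_mul_of_nonneg_left hc.le (hμ ω)
      have e2 : 0 ≤ μ ω * max 0 (-idn μ f h g ω) := mul_nonneg (hμ ω) (le_max_left _ _)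
      linarith
    · rw [zero_mul]
      linarith
  rw [Finset.sum_add_distrib] at h2
  linarith

/-- informations for weights with a density which is bounded and lives where the information density is small -/
theorem hered (μ ν : Ω → ℝ) (hμ : ∀ ω, 0 ≤ μ ω) (hν : ∀ ω, 0 ≤ ν ω) (hm : ∑ ω, μ ω = 1) (hn : ∑ ω, ν ω = 1)
    (f : Ω → α) (h : Ω → β) (g : Ω → γ) (D c : ℝ) (hc : 0 < c) (hle : ∀ ω, c * ν ω ≤ μ ω)
    (hD : ∀ ω, ν ω ≠ 0 → idn μ f h g ω ≤ D) :
    CH ν f g - CH ν f (fun ω => (h ω, g ω)) ≤ D + Real.logb 2 (1 / c) := by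
  have hs : ∀ ω, ν ω ≠ 0 → μ ω ≠ 0 := by
    intro ω h0 h1
    have := hle ω
    rw [h1] at this
    have h2 := lt_of_le_of_ne (hν ω) (Ne.symm h0)
    nlinarith [mul_pos hc h2]
  have hpr : ∀ {δ : Type} (F : Ω → δ) (ω : Ω), c * pr ν F ω ≤ pr μ F ω := by
    intro δ F ω
    rw [e1_pr_ind, e1_pr_ind, Finset.mul_sum]
    refine Finset.sum_le_sum fun ω' _ => ?_
    by_cases hF : F ω' = F ω
    · rw [e1_ind_pos hF, one_mul, one_mul]
      exact hle ω'
    · rw [e1_ind_neg hF]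
      simp
  rw [← sum_idn ν f h g]
  have key1 : ∑ ω, ν ω * Real.logb 2 (pr μ (fun ω' => (f ω', g ω')) ω * (pr ν g ω / pr μ g ω) /
      pr ν (fun ω' => (f ω', g ω')) ω) ≤ 0 := by
    apply e1_gibbs ν _ hν
    · intro ω h0
      have a1 := e1_pr_pos ν (fun ω' => (f ω', g ω')) hν ω h0
      have a2 := e1_pr_pos μ (fun ω' => (f ω', g ω')) hμ ω (hs ω h0)
      have a3 := e1_pr_pos ν g hν ω h0
      have a4 := e1_pr_pos μ g hμ ω (hs ω h0)
      exact div_pos (mul_pos a2 (div_pos a3 a4)) a1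
    · have e1 := swap μ ν hμ hν (fun ω' => (f ω', g ω')) (fun ω => pr ν g ω / pr μ g ω)
        (fun ω => div_nonneg (e1_pr_nonneg ν g hν ω) (e1_pr_nonneg μ g hμ ω))
        (fun ω ω' hf => by
          have hg : g ω = g ω' := (Prod.ext_iff.1 hf).2
          rw [e1_pr_atom ν g ω ω' hg, e1_pr_atom μ g ω ω' hg])
      refine e1.trans ?_
      have e2 := swap ν μ hν hμ g (fun _ => (1 : ℝ)) (fun _ => zero_le_one) (fun _ _ _ => rfl)
      simp only [mul_one] at e2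
      exact e2
  have key2 : ∑ ω, ν ω * Real.logb 2 (pr μ (fun ω' => (h ω', g ω')) ω / pr ν (fun ω' => (h ω', g ω')) ω) ≤ 0 := by
    apply e1_gibbs ν _ hν
    · intro ω h0
      exact div_pos (e1_pr_pos μ _ hμ ω (hs ω h0)) (e1_pr_pos ν _ hν ω h0)
    · have e2 := swap μ ν hμ hν (fun ω' => (h ω', g ω')) (fun _ => (1 : ℝ)) (fun _ => zero_le_one) (fun _ _ _ => rfl)
      simp only [mul_one] at e2
      rw [hn, ← hm]
      exact e2
  have key3 : ∑ ω, ν ω * idn ν f h g ω ≤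
      ∑ ω, (ν ω * Real.logb 2 (pr μ (fun ω' => (f ω', g ω')) ω * (pr ν g ω / pr μ g ω) /
        pr ν (fun ω' => (f ω', g ω')) ω) +
        ν ω * Real.logb 2 (pr μ (fun ω' => (h ω', g ω')) ω / pr ν (fun ω' => (h ω', g ω')) ω) +
        ν ω * (D + Real.logb 2 (1 / c))) := by
    refine Finset.sum_le_sum fun ω _ => ?_
    by_cases h0 : ν ω = 0
    · rw [h0]; simp
    have a1 := e1_pr_pos ν (fun ω' => (f ω', g ω')) hν ω h0
    have a2 := e1_pr_pos μ (fun ω' => (f ω', g ω')) hμ ω (hs ω h0)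
    have a3 := e1_pr_pos ν g hν ω h0
    have a4 := e1_pr_pos μ g hμ ω (hs ω h0)
    have a5 := e1_pr_pos ν (fun ω' => (h ω', g ω')) hν ω h0
    have a6 := e1_pr_pos μ (fun ω' => (h ω', g ω')) hμ ω (hs ω h0)
    have a7 := e1_pr_pos ν (fun ω' => (f ω', (h ω', g ω'))) hν ω h0
    have a8 := e1_pr_pos μ (fun ω' => (f ω', (h ω', g ω'))) hμ ω (hs ω h0)
    have e1 : Real.logb 2 (pr ν (fun ω' => (f ω', (h ω', g ω'))) ω) ≤
        Real.logb 2 (pr μ (fun ω' => (f ω', (h ω', g ω'))) ω) + Real.logb 2 (1 / c) := by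
      rw [← Real.logb_mul a8.ne' (by positivity)]
      apply Real.logb_le_logb_of_le (by norm_num) a7
      rw [mul_one_div, le_div_iff₀ hc, mul_comm]
      exact hpr _ ω
    rw [Real.logb_div (mul_pos a2 (div_pos a3 a4)).ne' a1.ne', Real.logb_mul a2.ne' (div_pos a3 a4).ne',
      Real.logb_div a3.ne' a4.ne', Real.logb_div a6.ne' a5.ne', ← mul_add, ← mul_add]
    apply mul_le_mul_of_nonneg_left _ (hν ω)
    have e2 := hD ω h0
    unfold idn at e2 ⊢
    linarith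
  refine key3.trans ?_
  rw [Finset.sum_add_distrib, Finset.sum_add_distrib, ← Finset.sum_mul, hn, one_mul]
  linarith

/-- densities of pullbacks -/
theorem idn_push {Ω' : Type} [Fintype Ω'] (π : Ω' → Ω) (μ' : Ω' → ℝ) (f : Ω → α) (h : Ω → β) (g : Ω → γ) (ω : Ω') :
    idn μ' (fun ω => f (π ω)) (fun ω => h (π ω)) (fun ω => g (π ω)) ω = idn (push π μ') f h g (π ω) := by
  have h1 : ∀ {δ : Type} (F : Ω → δ), pr μ' (fun ω => F (π ω)) ω = pr (push π μ') F (π ω) := by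
    intro δ F
    classical
    rw [e1_pr_ind, e1_pr_ind]
    have e1 : ∀ ω₁ : Ω, e1_ind (F ω₁ = F (π ω)) * push π μ' ω₁ =
        ∑ ω', e1_ind (π ω' = ω₁) * (e1_ind (F (π ω') = F (π ω)) * μ' ω') := by
      intro ω₁
      rw [push_ind, Finset.mul_sum]
      refine Finset.sum_congr rfl fun ω' _ => ?_
      by_cases hc : π ω' = ω₁
      · rw [e1_ind_pos hc, hc]; ring
      · rw [e1_ind_neg hc]; ring
    rw [Finset.sum_congr rfl (fun ω₁ _ => e1 ω₁), Finset.sum_comm]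
    refine Finset.sum_congr rfl fun ω' _ => ?_
    rw [Finset.sum_eq_single (π ω')]
    · rw [e1_ind_pos rfl, one_mul]
    · intro b _ hb
      rw [e1_ind_neg (fun hc => hb hc.symm), zero_mul]
    · intro hc
      exact absurd (Finset.mem_univ _) hc
  unfold idn
  have h2 := h1 g
  have h3 := h1 (fun ω => (f ω, g ω))
  have h4 := h1 (fun ω => (h ω, g ω))
  have h5 := h1 (fun ω => (f ω, (h ω, g ω)))
  beta_reduce at h3 h4 h5
  rw [← h2, ← h3, ← h4, ← h5]

end fin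

section ext

variable {T S : Sp} (p : Pj T S) (E : ∀ k, (T.F k).Ω → Prop)

theorem e_eq_CH (k : ℕ) (A C : Setoid (S.F k).Ω) :
    ((T.F k).rest (E k)).e (Setoid.comap (p.π k) A) (Setoid.comap (p.π k) C ⊓ (T.F k).Z) =
      CH ((T.F k).rest (E k)).μ (fun ω => Quotient.mk A (p.π k ω))
        (fun ω => Quotient.mk (C ⊓ (S.F k).Z) (p.π k ω)) := by
  apply FSp.e_congr
  · intro ω ω' _ _
    exact (Quotient.eq (r := A)).symm
  · intro ω ω' h h'
    have h1 := p.hZ k ω' ω ((T.F k).rest_supp (E k) ω' h').1 ((T.F k).rest_supp (E k) ω h).1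
    rw [Quotient.eq]
    exact and_congr Iff.rfl h1

theorem e_eq_CH2 (k : ℕ) (A B C : Setoid (S.F k).Ω) :
    ((T.F k).rest (E k)).e (Setoid.comap (p.π k) A) (Setoid.comap (p.π k) (B ⊓ C) ⊓ (T.F k).Z) =
      CH ((T.F k).rest (E k)).μ (fun ω => Quotient.mk A (p.π k ω))
        (fun ω => (Quotient.mk B (p.π k ω), Quotient.mk (C ⊓ (S.F k).Z) (p.π k ω))) := by
  apply FSp.e_congr
  · intro ω ω' _ _
    exact (Quotient.eq (r := A)).symm
  · intro ω ω' h h'
    have h1 := p.hZ k ω' ω ((T.F k).rest_supp (E k) ω' h').1 ((T.F k).rest_supp (E k) ω h).1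
    rw [Prod.mk.injEq, Quotient.eq, Quotient.eq]
    constructor
    · rintro ⟨⟨a, b⟩, c⟩
      exact ⟨a, b, h1.mp c⟩
    · rintro ⟨a, b, c⟩
      exact ⟨⟨a, b⟩, h1.mpr c⟩

/-- informations on an event on which the density is small -/
theorem ext_le (k : ℕ) (A B C : Setoid (S.F k).Ω) (D : ℝ) (h0 : 0 < (T.F k).pb (E k))
    (hD : ∀ ω, (T.F k).μ ω ≠ 0 → E k ω → idn (S.F k).μ (Quotient.mk A) (Quotient.mk B)
      (Quotient.mk (C ⊓ (S.F k).Z)) (p.π k ω) ≤ D) :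
    ((T.F k).rest (E k)).e (Setoid.comap (p.π k) A) (Setoid.comap (p.π k) C ⊓ (T.F k).Z) -
      ((T.F k).rest (E k)).e (Setoid.comap (p.π k) A) (Setoid.comap (p.π k) (B ⊓ C) ⊓ (T.F k).Z) ≤
      D + Real.logb 2 (1 / (T.F k).pb (E k)) := by
  rw [e_eq_CH, e_eq_CH2]
  apply hered (T.F k).μ ((T.F k).rest (E k)).μ (T.F k).nn ((T.F k).rest (E k)).nn (T.F k).ms
    ((T.F k).rest (E k)).ms _ _ _ D _ h0
  · intro ω
    show (T.F k).pb (E k) * (T.F k).restμ (E k) ω ≤ _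
    rw [(T.F k).restμ_eq (E k) h0.ne', ← mul_assoc, mul_inv_cancel₀ h0.ne', one_mul]
    by_cases h : E k ω
    · rw [res_pos _ _ _ h]
    · rw [res_neg _ _ _ h]
      exact (T.F k).nn ω
  · intro ω hω
    have h1 := (T.F k).rest_supp (E k) ω hω
    have h2 := idn_push (p.π k) (T.F k).μ (Quotient.mk A) (Quotient.mk B) (Quotient.mk (C ⊓ (S.F k).Z)) ω
    rw [p.law k] at h2
    exact h2.le.trans (hD ω h1.1 (h1.2 h0.ne'))

end ext

/-- the density of two informations given a third one, at the index `k` -/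
def dens {S : Sp} (A B C : S.Inf) (k : ℕ) (ω : (S.F k).Ω) : ℝ :=
  idn (S.F k).μ (Quotient.mk (A.1 k)) (Quotient.mk (B.1 k)) (Quotient.mk (C.1 k ⊓ (S.F k).Z)) ω

theorem I_cl {S : Sp} (A B C : S.Inf) :
    I (cl A) (cl B) (cl C) = ul (fun k => S.rt A.1 C.1 k - S.rt A.1 (fun k => B.1 k ⊓ C.1 k) k) := by
  rw [I_eq, ← cl_sup, h_cl, h_cl, ← ul_sub (UB_rt A _) (UB_rt A _)]
  rfl

/-- HEREDITARY INDEPENDENCE: there is an event of probability at least `1 - I / ε₁` such that on all events of it, in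
all extensions, the information is at most `ε₁` -/
theorem exists_hered (S : Sp) (V Y C : S.L) (ε₁ : ℝ) (h1 : 0 < ε₁) :
    ∃ G : ∀ k, (S.F k).Ω → Prop, 1 - I V Y C / ε₁ ≤ ul (S.pr G) ∧
      ∀ (T : Sp) (p : Pj T S) (E : ∀ k, (T.F k).Ω → Prop) (hE : 0 < ul (T.pr E)),
        (∀ k ω, (T.F k).μ ω ≠ 0 → E k ω → G k (p.π k ω)) →
        I (restL E hE (p.map V)) (restL E hE (p.map Y)) (restL E hE (p.map C)) ≤ ε₁ := by
  classical
  induction V using cl_ind with | _ A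
  induction Y using cl_ind with | _ B
  induction C using cl_ind with | _ C
  refine ⟨fun k ω => dens A B C k ω ≤ ε₁ * (S.F k).n, ?_, ?_⟩
  · have e1 : ∀ k, 1 - (S.rt A.1 C.1 k - S.rt A.1 (fun k => B.1 k ⊓ C.1 k) k) / ε₁ - 2 / ε₁ / (S.F k).n ≤
        S.pr (fun k ω => dens A B C k ω ≤ ε₁ * (S.F k).n) k := by
      intro k
      have hn := (S.F k).pos
      have e2 := markov_idn (S.F k).μ (S.F k).nn (S.F k).ms (Quotient.mk (A.1 k)) (Quotient.mk (B.1 k))
        (Quotient.mk (C.1 k ⊓ (S.F k).Z)) (ε₁ * (S.F k).n) (mul_pos h1 hn)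
      have e3 : S.pr (fun k ω => dens A B C k ω ≤ ε₁ * (S.F k).n) k =
          1 - ∑ ω, (if ε₁ * (S.F k).n < dens A B C k ω then (S.F k).μ ω else 0) := by
        have e4 := (S.F k).pb_add_compl (fun ω => dens A B C k ω ≤ ε₁ * (S.F k).n)
        have e5 : (S.F k).pb (fun ω => ¬ dens A B C k ω ≤ ε₁ * (S.F k).n) =
            ∑ ω, (if ε₁ * (S.F k).n < dens A B C k ω then (S.F k).μ ω else 0) := by
          unfold FSp.pb mass
          refine Finset.sum_congr rfl fun ω _ => ?_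
          by_cases hc : ε₁ * (S.F k).n < dens A B C k ω
          · rw [if_pos hc]
            exact res_pos _ (fun ω => ¬ dens A B C k ω ≤ ε₁ * (S.F k).n) ω (not_le.mpr hc)
          · rw [if_neg hc]
            exact res_neg _ (fun ω => ¬ dens A B C k ω ≤ ε₁ * (S.F k).n) ω (fun h => hc (not_le.mp h))
        rw [← e5]
        unfold Sp.pr
        linarith
      rw [e3]
      have e6 : S.rt A.1 C.1 k - S.rt A.1 (fun k => B.1 k ⊓ C.1 k) k =
          (CH (S.F k).μ (Quotient.mk (A.1 k)) (Quotient.mk (C.1 k ⊓ (S.F k).Z)) -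
            CH (S.F k).μ (Quotient.mk (A.1 k)) (fun ω => (Quotient.mk (B.1 k) ω,
              Quotient.mk (C.1 k ⊓ (S.F k).Z) ω))) / (S.F k).n := by
        unfold Sp.rt
        rw [← sub_div]
        congr 2
        rw [(S.F k).e_pair_right, inf_assoc]
      rw [e6]
      have e7 : (∑ ω, (if ε₁ * (S.F k).n < dens A B C k ω then (S.F k).μ ω else 0)) ≤
          (CH (S.F k).μ (Quotient.mk (A.1 k)) (Quotient.mk (C.1 k ⊓ (S.F k).Z)) -
            CH (S.F k).μ (Quotient.mk (A.1 k)) (fun ω => (Quotient.mk (B.1 k) ω,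
              Quotient.mk (C.1 k ⊓ (S.F k).Z) ω)) + 2) / (ε₁ * (S.F k).n) := by
        rw [le_div_iff₀ (mul_pos h1 hn)]
        exact e2
      have e8 : (CH (S.F k).μ (Quotient.mk (A.1 k)) (Quotient.mk (C.1 k ⊓ (S.F k).Z)) -
            CH (S.F k).μ (Quotient.mk (A.1 k)) (fun ω => (Quotient.mk (B.1 k) ω,
              Quotient.mk (C.1 k ⊓ (S.F k).Z) ω)) + 2) / (ε₁ * (S.F k).n) =
          (CH (S.F k).μ (Quotient.mk (A.1 k)) (Quotient.mk (C.1 k ⊓ (S.F k).Z)) -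
            CH (S.F k).μ (Quotient.mk (A.1 k)) (fun ω => (Quotient.mk (B.1 k) ω,
              Quotient.mk (C.1 k ⊓ (S.F k).Z) ω))) / (S.F k).n / ε₁ + 2 / ε₁ / (S.F k).n := by
        field_simp
      rw [e8] at e7
      linarith
    have hA := UB_rt A C.1
    have hA' := UB_rt A (fun k => B.1 k ⊓ C.1 k)
    have t1 := (ul_tendsto (hA.sub hA')).div_const ε₁
    have t2 := (S.div_n_tendsto (2 / ε₁))
    have t3 := (t1.const_sub 1).sub t2
    rw [sub_zero] at t3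
    have t4 := ul_tendsto (UB_pr (S := S) (fun k ω => dens A B C k ω ≤ ε₁ * (S.F k).n))
    rw [I_cl]
    exact le_of_tendsto_of_tendsto t3 t4 (Eventually.of_forall e1)
  · intro T p E hE hG
    show I (restL E hE (cl (p.mapI A))) (restL E hE (cl (p.mapI B))) (restL E hE (cl (p.mapI C))) ≤ ε₁
    rw [restL_cl, restL_cl, restL_cl, I_cl]
    have hpb := ul_tendsto (UB_pr (S := T) E)
    have h2 : Tendsto (fun k => ε₁ + Real.logb 2 (1 / (ul (T.pr E) / 2)) / (T.F k).n) UF (𝓝 ε₁) := by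
      have := (T.div_n_tendsto (Real.logb 2 (1 / (ul (T.pr E) / 2)))).const_add ε₁
      rwa [add_zero] at this
    have hA := UB_rt (restI E (p.mapI A)) (restI E (p.mapI C)).1
    have hA' := UB_rt (restI E (p.mapI A)) (fun k => (restI E (p.mapI B)).1 k ⊓ (restI E (p.mapI C)).1 k)
    refine le_of_tendsto_of_tendsto (ul_tendsto (hA.sub hA')) h2 ?_
    filter_upwards [hpb.eventually (lt_mem_nhds (half_lt_self hE))] with k hk
    have hk0 : 0 < (T.F k).pb (E k) := lt_trans (half_pos hE) hk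
    have hn := (T.F k).pos
    have h3 := ext_le p E k (A.1 k) (B.1 k) (C.1 k) (ε₁ * (S.F k).n) hk0 (fun ω a b => hG k ω a b)
    have h4 : Real.logb 2 (1 / (T.F k).pb (E k)) ≤ Real.logb 2 (1 / (ul (T.pr E) / 2)) := by
      apply Real.logb_le_logb_of_le (by norm_num) (by positivity)
      exact one_div_le_one_div_of_le (half_pos hE) hk.le
    have h5 : (T.rest E).rt (restI E (p.mapI A)).1 (restI E (p.mapI C)).1 k -
        (T.rest E).rt (restI E (p.mapI A)).1 (fun k => (restI E (p.mapI B)).1 k ⊓ (restI E (p.mapI C)).1 k) k =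
        (((T.F k).rest (E k)).e (Setoid.comap (p.π k) (A.1 k)) (Setoid.comap (p.π k) (C.1 k) ⊓ (T.F k).Z) -
      ((T.F k).rest (E k)).e (Setoid.comap (p.π k) (A.1 k)) (Setoid.comap (p.π k) (B.1 k ⊓ C.1 k) ⊓ (T.F k).Z)) /
        (T.F k).n := by
      unfold Sp.rt
      rw [← sub_div]
      rfl
    rw [h5, div_le_iff₀ hn, add_mul, div_mul_cancel₀ _ hn.ne', p.hn k]
    linarith

end

end Pool.Agent.Helper91.NS
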