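import Mathlib.MeasureTheory.Measure.Hausdorff
import Mathlib.Analysis.Calculus.Monotone
import Mathlib.MeasureTheory.Covering.DensityTheorem

/-! Selection of a typical corner of finite speed (ns_notes_39b (0.1), ns_proof (M3)): real analysis. -/

namespace Pool.Agent.Helper91.NS

open MeasureTheory Filter Set Topology

/-- a map which expands distances pulls measures back: `|f⁻¹(M)| ≤ |M|` -/
theorem vol_preimage_le {f : ℝ → ℝ} {s M : Set ℝ} (hf : ∀ x ∈ s, ∀ y ∈ s, x ≤ y → y - x ≤ f y - f x) :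
    volume {x | x ∈ s ∧ f x ∈ M} ≤ volume M := by
  classical
  set A : Set ℝ := {x | x ∈ s ∧ f x ∈ M} with hA
  have hinj : ∀ x ∈ s, ∀ y ∈ s, |x - y| ≤ |f x - f y| := by
    intro x hx y hy
    rcases le_total x y with h | h
    · have := hf x hx y hy h
      rw [abs_sub_comm x y, abs_sub_comm (f x) (f y), abs_of_nonneg (by linarith), abs_of_nonneg (by linarith)]
      exact this
    · have := hf y hy x hx h
      rw [abs_of_nonneg (by linarith), abs_of_nonneg (by linarith)]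
      exact this
  have hex : ∀ y ∈ f '' A, ∃ x ∈ A, f x = y := fun y hy => hy
  choose! g hg hfg using hex
  have hlip : LipschitzOnWith 1 g (f '' A) := by
    apply LipschitzOnWith.of_dist_le_mul
    intro y hy z hz
    rw [NNReal.coe_one, one_mul, Real.dist_eq, Real.dist_eq]
    have := hinj (g y) (hg y hy).1 (g z) (hg z hz).1
    rwa [hfg y hy, hfg z hz] at this
  have hgA : A ⊆ g '' (f '' A) := by
    intro x hx
    refine ⟨f x, mem_image_of_mem f hx, ?_⟩
    have h1 := hfg (f x) (mem_image_of_mem f hx)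
    have h2 := hg (f x) (mem_image_of_mem f hx)
    have h3 := hinj (g (f x)) h2.1 x hx.1
    rw [h1, sub_self, abs_zero] at h3
    have h4 := abs_nonneg (g (f x) - x)
    have h5 : |g (f x) - x| = 0 := le_antisymm h3 h4
    exact sub_eq_zero.mp (abs_eq_zero.mp h5)
  have hfM : f '' A ⊆ M := by
    rintro y ⟨x, hx, rfl⟩
    exact hx.2
  have h1 : volume (g '' (f '' A)) ≤ volume (f '' A) := by
    have h2 := hlip.hausdorffMeasure_image_le (d := 1) zero_le_one
    rw [hausdorffMeasure_real] at h2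
    simpa using h2
  exact (measure_mono hgA).trans (h1.trans (measure_mono hfM))

/-- the derivative of an expanding function is at least one -/
theorem one_le_deriv {f : ℝ → ℝ} {a b c : ℝ} (hc : c ∈ Ioo a b)
    (hf : ∀ x ∈ Ioo a b, ∀ y ∈ Ioo a b, x ≤ y → y - x ≤ f y - f x) (hd : DifferentiableAt ℝ f c) :
    1 ≤ deriv f c := by
  have h1 := hd.hasDerivAt.tendsto_slope
  have h2 : Tendsto (slope f c) (𝓝[>] c) (𝓝 (deriv f c)) :=
    h1.mono_left (nhdsWithin_mono _ (fun x (hx : c < x) => (ne_of_gt hx)))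
  refine ge_of_tendsto h2 ?_
  have h3 : Ioo c b ∈ 𝓝[>] c := Ioo_mem_nhdsGT hc.2
  filter_upwards [h3] with y hy
  have h4 := hf c hc y ⟨hc.1.trans hy.1, hy.2⟩ hy.1.le
  rw [slope_def_field, le_div_iff₀ (sub_pos.mpr hy.1), one_mul]
  exact h4

/-- almost every window is a point of differentiability -/
theorem null_nondiff {f : ℝ → ℝ} {a b : ℝ}
    (hf : ∀ x ∈ Ioo a b, ∀ y ∈ Ioo a b, x ≤ y → y - x ≤ f y - f x) :
    volume {c | c ∈ Ioo a b ∧ ¬ DifferentiableAt ℝ f c} = 0 := by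
  have hm : MonotoneOn f (Ioo a b) := by
    intro x hx y hy hxy
    have := hf x hx y hy hxy
    linarith
  have h1 := hm.ae_differentiableWithinAt measurableSet_Ioo
  rw [ae_restrict_iff' measurableSet_Ioo] at h1
  refine measure_mono_null ?_ (ae_iff.mp h1)
  rintro c ⟨hc, hn⟩ h2
  exact hn ((h2 hc).differentiableAt (Ioo_mem_nhds hc.1 hc.2))

/-- SELECTION OF A CORNER OF FINITE SPEED AT A LEVEL OF `E`. `η(c)` is the thickness of the best container in the
window `c`, `c₀` the first window with `η = 1`; `hsp` is the lemma SPEED, `hlip` the Lipschitz property at the top,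
`hd` says that `1` is a left density point of `E`; `N` and `M` are null sets of windows and levels. -/
theorem pick {η : ℝ → ℝ} {c₀ : ℝ} (h0 : 0 < c₀)
    (hsp : ∀ c ∈ Ioo 0 c₀, ∀ c' ∈ Ioo 0 c₀, c ≤ c' → c' - c ≤ η c' - η c)
    (h1 : ∀ c ∈ Ioo 0 c₀, η c ≤ 1) (C : ℝ) (hlip : ∀ᶠ c in 𝓝[<] c₀, 1 - η c ≤ C * (c₀ - c))
    {E : Set ℝ} (hd : Tendsto (fun ρ : ℝ => volume (Ioo (1 - ρ) 1 \ E) / ENNReal.ofReal ρ) (𝓝[>] 0) (𝓝 0))
    {N M : Set ℝ} (hN : volume N = 0) (hM : volume M = 0) :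
    ∃ c ∈ Ioo 0 c₀, c ∉ N ∧ η c ∉ M ∧ η c ∈ E ∧ η c < 1 ∧ DifferentiableAt ℝ η c ∧ 1 ≤ deriv η c := by
  by_contra hcon
  have hcon' : ∀ c ∈ Ioo 0 c₀, c ∉ N → η c ∉ M → η c ∈ E → DifferentiableAt ℝ η c → False := by
    intro c hc a1 a2 a3 a4
    apply hcon
    refine ⟨c, hc, a1, a2, a3, ?_, a4, one_le_deriv hc hsp a4⟩
    have hc' : (c + c₀) / 2 ∈ Ioo 0 c₀ := ⟨by linarith [hc.1], by linarith [hc.2]⟩
    have e1 := hsp c hc _ hc' (by linarith [hc.2])
    have e2 := h1 _ hc'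
    linarith [hc.2]
  set C' := max C 1 with hC'
  have hC1 : 1 ≤ C' := le_max_right _ _
  have hCp : 0 < C' := by linarith
  have hlim : Tendsto (fun a : ℝ => C' * (c₀ - a)) (𝓝[<] c₀) (𝓝[>] 0) := by
    apply tendsto_nhdsWithin_iff.mpr
    refine ⟨?_, ?_⟩
    · have : Tendsto (fun a : ℝ => C' * (c₀ - a)) (𝓝 c₀) (𝓝 (C' * (c₀ - c₀))) :=
        (continuous_const.mul (continuous_const.sub continuous_id)).tendsto c₀
      rw [sub_self, mul_zero] at this
      exact this.mono_left nhdsWithin_le_nhds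
    · filter_upwards [self_mem_nhdsWithin] with a (ha : a < c₀)
      exact mul_pos hCp (sub_pos.mpr ha)
  have hev := hlim.eventually (hd.eventually_lt_const (u := ENNReal.ofReal (1 / (2 * C')))
    (by rw [ENNReal.ofReal_pos]; positivity))
  have hpos : ∀ᶠ a in 𝓝[<] c₀, 0 < a := by
    have : Ioo 0 c₀ ∈ 𝓝[<] c₀ := Ioo_mem_nhdsLT h0
    filter_upwards [this] with a ha using ha.1
  obtain ⟨a, ha1, ha2, ha3, ha4⟩ := (hev.and (hlip.and (hpos.and self_mem_nhdsWithin))).exists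
  have ha4' : a < c₀ := ha4
  set δ := c₀ - a with hδ
  have hδ0 : 0 < δ := sub_pos.mpr ha4'
  have ha2' : 1 - η a ≤ C' * δ := ha2.trans (mul_le_mul_of_nonneg_right (le_max_left _ _) hδ0.le)
  have haI : a ∈ Ioo 0 c₀ := ⟨ha3, ha4'⟩
  have hvol : volume (Ioo (1 - C' * δ) 1 \ E) < ENNReal.ofReal (δ / 2) := by
    have hp : 0 < C' * δ := mul_pos hCp hδ0
    have h2 : ENNReal.ofReal (C' * δ) ≠ 0 := (ENNReal.ofReal_pos.mpr hp).ne'
    have h3 := (ENNReal.div_lt_iff (Or.inl h2) (Or.inl ENNReal.ofReal_ne_top)).mp ha1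
    rw [← ENNReal.ofReal_mul (by positivity)] at h3
    have h4 : 1 / (2 * C') * (C' * δ) = δ / 2 := by
      field_simp
    rwa [h4] at h3
  have hcover : Ioo a c₀ ⊆ (N ∪ {c | c ∈ Ioo 0 c₀ ∧ η c ∈ M} ∪ {c | c ∈ Ioo 0 c₀ ∧ ¬ DifferentiableAt ℝ η c}) ∪
      {c | c ∈ Ioo 0 c₀ ∧ η c ∈ Ioo (1 - C' * δ) 1 \ E} := by
    intro c hc
    have hcI : c ∈ Ioo 0 c₀ := ⟨ha3.trans hc.1, hc.2⟩
    by_cases b1 : c ∈ N
    · exact Or.inl (Or.inl (Or.inl b1))
    by_cases b2 : η c ∈ M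
    · exact Or.inl (Or.inl (Or.inr ⟨hcI, b2⟩))
    by_cases b3 : DifferentiableAt ℝ η c
    · by_cases b4 : η c ∈ E
      · exact (hcon' c hcI b1 b2 b4 b3).elim
      · refine Or.inr ⟨hcI, ⟨?_, ?_⟩, b4⟩
        · have := hsp a haI c hcI hc.1.le
          linarith [hc.1]
        · have hc' : (c + c₀) / 2 ∈ Ioo 0 c₀ := ⟨by linarith [hcI.1], by linarith [hc.2]⟩
          have e1 := hsp c hcI _ hc' (by linarith [hc.2])
          have e2 := h1 _ hc'
          linarith [hc.2]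
    · exact Or.inl (Or.inr ⟨hcI, b3⟩)
  have hm1 : volume {c | c ∈ Ioo 0 c₀ ∧ η c ∈ M} = 0 :=
    le_antisymm ((vol_preimage_le hsp).trans hM.le) (by simp)
  have hm2 := null_nondiff hsp
  have hm3 : volume {c | c ∈ Ioo 0 c₀ ∧ η c ∈ Ioo (1 - C' * δ) 1 \ E} < ENNReal.ofReal (δ / 2) :=
    (vol_preimage_le hsp).trans_lt hvol
  have h5 : volume (Ioo a c₀) ≤ 0 + volume {c | c ∈ Ioo 0 c₀ ∧ η c ∈ Ioo (1 - C' * δ) 1 \ E} := by
    refine (measure_mono hcover).trans ((measure_union_le _ _).trans ?_)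
    gcongr
    exact (measure_union_null (measure_union_null hN hm1) hm2).le
  rw [Real.volume_Ioo, zero_add] at h5
  have h6 := h5.trans_lt hm3
  rw [ENNReal.ofReal_lt_ofReal_iff (by positivity)] at h6
  linarith

end Pool.Agent.Helper91.NS
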